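import Mathlib
import Pool.Agent.H410R2.MFinal

/-! For all large `N`: at least `N ^ θ` primes `q ∈ [N ^ θ, N]`, `θ > 1/2`, with
`(q - 1) / 2 ^ k + 1` prime for one exponent `k ≤ 1999`. -/

set_option autoImplicit false

namespace Pool.Agent.H947R3.CA

open Finset Pool.Agent.H410R2

theorem adm (K P : ℕ) (e : Fin K → ℕ) (hP : ∀ p : ℕ, p.Prime → p ≤ K + 1 → p ∣ P) :
    ∀ p : ℕ, p.Prime → ∃ n : ℕ, ¬ p ∣ n ∧
      ∀ i : Fin K, ¬ p ∣ (P * 2 ^ e i) * n + 1 := by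
  intro p hp
  by_cases h : p ≤ K + 1
  · refine ⟨1, ?_, ?_⟩
    · intro h1
      exact hp.one_lt.ne' (Nat.dvd_one.1 h1)
    · intro i hi
      have h1 : p ∣ (P * 2 ^ e i) * 1 :=
        Dvd.dvd.mul_right (Dvd.dvd.mul_right (hP p hp h) _) _
      exact hp.one_lt.ne' (Nat.dvd_one.1 ((Nat.dvd_add_right h1).1 hi))
  · have : Fact p.Prime := ⟨hp⟩
    set S : Finset (ZMod p) := insert 0
      (univ.image (fun i : Fin K => -(((P * 2 ^ e i : ℕ) : ZMod p))⁻¹)) with hS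
    have hc : S.card < (univ : Finset (ZMod p)).card := by
      have h1 : S.card ≤
          (univ.image (fun i : Fin K => -(((P * 2 ^ e i : ℕ) : ZMod p))⁻¹)).card + 1 :=
        card_insert_le _ _
      have h2 : (univ.image
          (fun i : Fin K => -(((P * 2 ^ e i : ℕ) : ZMod p))⁻¹)).card ≤ K :=
        card_image_le.trans (by simp)
      rw [card_univ, ZMod.card]
      omega
    obtain ⟨z, _, hz⟩ := exists_mem_notMem_of_card_lt_card hc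
    refine ⟨z.val, ?_, ?_⟩
    · intro hd
      have h1 : ((z.val : ℕ) : ZMod p) = 0 := (ZMod.natCast_eq_zero_iff _ _).2 hd
      rw [ZMod.natCast_zmod_val] at h1
      exact hz (by rw [h1]; exact mem_insert_self _ _)
    · intro i hd
      have h1 : (((P * 2 ^ e i) * z.val + 1 : ℕ) : ZMod p) = 0 :=
        (ZMod.natCast_eq_zero_iff _ _).2 hd
      rw [Nat.cast_add, Nat.cast_mul, ZMod.natCast_zmod_val, Nat.cast_one] at h1
      apply hz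
      apply mem_insert_of_mem
      rw [mem_image]
      refine ⟨i, mem_univ _, ?_⟩
      have h2 : ((P * 2 ^ e i : ℕ) : ZMod p) * z = -1 := by linear_combination h1
      have h3 : ((P * 2 ^ e i : ℕ) : ZMod p) ≠ 0 := by
        intro h0
        rw [h0, zero_mul] at h2
        exact one_ne_zero (neg_eq_zero.1 h2.symm)
      calc -(((P * 2 ^ e i : ℕ) : ZMod p))⁻¹
          = (((P * 2 ^ e i : ℕ) : ZMod p))⁻¹ * (-1) := by ring
        _ = (((P * 2 ^ e i : ℕ) : ZMod p))⁻¹ * (((P * 2 ^ e i : ℕ) : ZMod p) * z) := by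
            rw [h2]
        _ = z := inv_mul_cancel_left₀ h3 z

theorem step (K P M : ℕ) (hK : 1 ≤ K) (e : Fin K → ℕ) (he : Function.Injective e) (hM1 : 1 ≤ M) (hP1 : 1 ≤ P)
    (hM : ∀ i : Fin K, 2 * (P * 2 ^ e i) ≤ M)
    (θ α x₀ : ℝ) (hθ : 0 < θ) (hα : θ < α) (hα1 : α ≤ 1)
    (hx : ∀ x : ℝ, x₀ ≤ x → ∃ A : Finset ℕ, x ^ α ≤ (A.card : ℝ) ∧
      ∀ n ∈ A, n ∈ Icc 1 ⌊x⌋₊ ∧ ∃ i j : Fin K, i ≠ j ∧
        (P * 2 ^ e i * n + 1).Prime ∧ (P * 2 ^ e j * n + 1).Prime) :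
    ∃ N₀ : ℕ, ∀ N : ℕ, N₀ ≤ N → ∃ i j : Fin K, e i < e j ∧
    (N : ℝ) ^ θ ≤ ({q : ℕ | (N : ℝ) ^ θ ≤ q ∧ q ≤ N ∧ q.Prime ∧ 2 ^ (e j - e i) ∣ q - 1 ∧
      ((q - 1) / 2 ^ (e j - e i) + 1).Prime}.ncard : ℝ) := by
  classical
  have hMr : (1 : ℝ) ≤ M := by exact_mod_cast hM1
  have hM0 : (0 : ℝ) < M := by linarith
  have hev : ∀ᶠ N : ℕ in Filter.atTop, 2 ≤ N ∧ x₀ * M ≤ (N : ℝ) ∧
      4 * (K : ℝ) ^ 2 * (M : ℝ) ≤ (N : ℝ) ^ (α - θ) := by
    refine (Filter.eventually_ge_atTop 2).and ?_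
    have t1 : Filter.Tendsto (fun N : ℕ => (N : ℝ)) Filter.atTop Filter.atTop :=
      tendsto_natCast_atTop_atTop
    exact (t1.eventually_ge_atTop _).and
      (((tendsto_rpow_atTop (sub_pos.2 hα)).comp t1).eventually_ge_atTop _)
  obtain ⟨N₀, hN₀⟩ := Filter.eventually_atTop.1 hev
  refine ⟨N₀, fun N hN => ?_⟩
  obtain ⟨h2N, hxN, hbig⟩ := hN₀ N hN
  have hNr : (2 : ℝ) ≤ N := by exact_mod_cast h2N
  have hN0 : (0 : ℝ) < N := by linarith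
  set x : ℝ := N / M with hxd
  have hx0 : 0 ≤ x := by positivity
  have hxx : x₀ ≤ x := by
    rw [hxd, le_div_iff₀ hM0]
    exact hxN
  have hNθ : (1 : ℝ) ≤ (N : ℝ) ^ θ := Real.one_le_rpow (by linarith) hθ.le
  have hlow : 4 * (K : ℝ) ^ 2 * (N : ℝ) ^ θ ≤ x ^ α := by
    rw [hxd, Real.div_rpow hN0.le hM0.le, le_div_iff₀ (Real.rpow_pos_of_pos hM0 _)]
    have h1 : (M : ℝ) ^ α ≤ M := by
      calc (M : ℝ) ^ α ≤ (M : ℝ) ^ (1 : ℝ) := Real.rpow_le_rpow_of_exponent_le hMr hα1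
        _ = M := Real.rpow_one _
    have h2 : (N : ℝ) ^ α = (N : ℝ) ^ θ * (N : ℝ) ^ (α - θ) := by
      rw [← Real.rpow_add hN0]
      congr 1
      ring
    rw [h2]
    calc 4 * (K : ℝ) ^ 2 * (N : ℝ) ^ θ * (M : ℝ) ^ α ≤ 4 * (K : ℝ) ^ 2 * (N : ℝ) ^ θ * M := by
          gcongr
      _ = (N : ℝ) ^ θ * (4 * (K : ℝ) ^ 2 * (M : ℝ)) := by ring
      _ ≤ _ := by gcongr
  obtain ⟨A, hA, hA2⟩ := hx x hxx
  let B : Fin K × Fin K → Finset ℕ := fun ij => (Icc 1 ⌊x⌋₊).filter (fun n =>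
        (P * 2 ^ e ij.1 * n + 1).Prime ∧ (P * 2 ^ e ij.2 * n + 1).Prime)
  let R : Finset (Fin K × Fin K) := univ.filter (fun ij => e ij.1 < e ij.2)
  have hsub : A ⊆ R.biUnion B := by
    intro n hn
    obtain ⟨hn1, i, j, hij, hi, hj⟩ := hA2 n hn
    rw [mem_biUnion]
    rcases lt_or_gt_of_ne (he.ne hij) with h | h
    · exact ⟨(i, j), mem_filter.2 ⟨mem_univ _, h⟩, mem_filter.2 ⟨hn1, hi, hj⟩⟩
    · exact ⟨(j, i), mem_filter.2 ⟨mem_univ _, h⟩, mem_filter.2 ⟨hn1, hj, hi⟩⟩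
  have hRc : R.card ≤ K ^ 2 := by
    have h1 : R.card ≤ (univ : Finset (Fin K × Fin K)).card := card_filter_le _ _
    rw [card_univ, Fintype.card_prod, Fintype.card_fin] at h1
    rw [pow_two]
    exact h1
  have hex : ∃ ij ∈ R, 3 * (N : ℝ) ^ θ ≤ ((B ij).card : ℝ) := by
    by_contra hcon
    push Not at hcon
    have h1 : (A.card : ℝ) ≤ ∑ ij ∈ R, ((B ij).card : ℝ) := by
      exact_mod_cast (card_le_card hsub).trans card_biUnion_le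
    have h2 : ∑ ij ∈ R, ((B ij).card : ℝ) ≤ ∑ ij ∈ R, 3 * (N : ℝ) ^ θ :=
      sum_le_sum (fun ij hij => (hcon ij hij).le)
    rw [sum_const, nsmul_eq_mul] at h2
    have h3 : (R.card : ℝ) ≤ (K : ℝ) ^ 2 := by exact_mod_cast hRc
    have h4 : (R.card : ℝ) * (3 * (N : ℝ) ^ θ) ≤ (K : ℝ) ^ 2 * (3 * (N : ℝ) ^ θ) := by
      gcongr
    have h5 : (0 : ℝ) < (K : ℝ) ^ 2 * (N : ℝ) ^ θ := by
      have : (0 : ℝ) < K := by exact_mod_cast hK
      positivity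
    linarith
  obtain ⟨⟨i, j⟩, hij, hB⟩ := hex
  have hlt : e i < e j := (mem_filter.1 hij).2
  refine ⟨i, j, hlt, ?_⟩
  set T : Set ℕ := {q : ℕ | (N : ℝ) ^ θ ≤ q ∧ q ≤ N ∧ q.Prime ∧ 2 ^ (e j - e i) ∣ q - 1 ∧
      ((q - 1) / 2 ^ (e j - e i) + 1).Prime} with hT
  have hTfin : T.Finite := (Set.finite_Iic N).subset (fun q hq => hq.2.1)
  set F := (B (i, j)).image (fun n => P * 2 ^ e j * n + 1) with hF
  have hFc : F.card = (B (i, j)).card := by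
    apply card_image_of_injective
    intro n m hnm
    have h1 : 0 < P * 2 ^ e j := Nat.mul_pos hP1 (by positivity)
    have h2 : P * 2 ^ e j * n = P * 2 ^ e j * m := by
      have : P * 2 ^ e j * n + 1 = P * 2 ^ e j * m + 1 := hnm
      omega
    exact Nat.eq_of_mul_eq_mul_left h1 h2
  have hFs : F ⊆ hTfin.toFinset ∪ range (⌊(N : ℝ) ^ θ⌋₊ + 1) := by
    intro q hq
    by_cases hqθ : (N : ℝ) ^ θ ≤ q
    · rw [mem_union]
      left
      rw [Set.Finite.mem_toFinset]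
      obtain ⟨n, hn, rfl⟩ := mem_image.1 hq
      obtain ⟨hn1, hn2, hn3⟩ := mem_filter.1 hn
      have hnx : (n : ℝ) ≤ x := (Nat.le_floor_iff hx0).1 (mem_Icc.1 hn1).2
      have hpow : 2 ^ e j = 2 ^ (e j - e i) * 2 ^ e i := by
        rw [← pow_add]
        congr 1
        omega
      have eq1 : P * 2 ^ e j * n = 2 ^ (e j - e i) * (P * 2 ^ e i * n) := by
        rw [hpow]
        ring
      refine ⟨hqθ, ?_, hn3, ?_, ?_⟩
      · have h1 : ((2 * (P * 2 ^ e j) : ℕ) : ℝ) ≤ M := by exact_mod_cast hM j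
        have h2 : ((2 * (P * 2 ^ e j) : ℕ) : ℝ) * n ≤ M * x := by
          gcongr
        have h3 : (M : ℝ) * x = N := by
          rw [hxd]
          field_simp
        have h4 : 2 * (P * 2 ^ e j) * n ≤ N := by
          rw [h3] at h2
          exact_mod_cast h2
        have h5 : 2 * (P * 2 ^ e j) * n = 2 * (P * 2 ^ e j * n) := by ring
        have h6 : P * 2 ^ e j * n + 1 ≤ N := by
          rw [h5] at h4
          omega
        exact h6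
      · rw [Nat.add_sub_cancel, eq1]
        exact Dvd.intro _ rfl
      · have h0 : 0 < 2 ^ (e j - e i) := by positivity
        rw [Nat.add_sub_cancel, eq1, Nat.mul_div_cancel_left _ h0]
        exact hn2
    · rw [mem_union]
      right
      rw [mem_range]
      have h1 : (q : ℝ) < (N : ℝ) ^ θ := not_le.1 hqθ
      have h2 : q ≤ ⌊(N : ℝ) ^ θ⌋₊ := (Nat.le_floor_iff (by positivity)).2 h1.le
      omega
  have hcard : F.card ≤ T.ncard + (⌊(N : ℝ) ^ θ⌋₊ + 1) := by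
    calc F.card ≤ (hTfin.toFinset ∪ range (⌊(N : ℝ) ^ θ⌋₊ + 1)).card := card_le_card hFs
      _ ≤ hTfin.toFinset.card + (range (⌊(N : ℝ) ^ θ⌋₊ + 1)).card := card_union_le _ _
      _ = _ := by rw [card_range, Set.ncard_eq_toFinset_card T hTfin]
  have hcr : (F.card : ℝ) ≤ (T.ncard : ℝ) + (⌊(N : ℝ) ^ θ⌋₊ + 1) := by exact_mod_cast hcard
  have hfl : (⌊(N : ℝ) ^ θ⌋₊ : ℝ) ≤ (N : ℝ) ^ θ := Nat.floor_le (by positivity)
  rw [hFc] at hcr
  linarith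

/-- `q` is a prime of `[y, N]`, `q ≡ 1 (mod 2 ^ k)`, and `(q - 1) / 2 ^ k + 1` is prime -/
def Good (k : ℕ) (y : ℝ) (N q : ℕ) : Prop :=
  y ≤ q ∧ q ≤ N ∧ q.Prime ∧ 2 ^ k ∣ q - 1 ∧ ((q - 1) / 2 ^ k + 1).Prime

theorem main_k (K : ℕ) (hK : K = 2000) (e : Fin K → ℕ) (he : Function.Injective e) :
    ∃ θ : ℝ, 1 / 2 < θ ∧ ∃ N₀ : ℕ, ∀ N : ℕ, N₀ ≤ N → ∃ i j : Fin K, e i < e j ∧
    (N : ℝ) ^ θ ≤ ({q : ℕ | (N : ℝ) ^ θ ≤ q ∧ q ≤ N ∧ q.Prime ∧ 2 ^ (e j - e i) ∣ q - 1 ∧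
      ((q - 1) / 2 ^ (e j - e i) + 1).Prime}.ncard : ℝ) := by
  obtain ⟨P, hPd⟩ : ∃ P : ℕ, P = (K + 1).factorial := ⟨_, rfl⟩
  have hP1 : 1 ≤ P := by
    rw [hPd]
    exact Nat.factorial_pos _
  have hP : ∀ p : ℕ, p.Prime → p ≤ K + 1 → p ∣ P := by
    intro p hp h
    rw [hPd]
    exact (hp.dvd_factorial).2 h
  obtain ⟨δ, hδ0, hδ1, x₀, hx⟩ := maynardTao_k K hK (fun i => P * 2 ^ e i) (fun _ => 1)
    (fun i => Nat.mul_pos hP1 (by positivity)) (fun _ => le_rfl)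
    (by
      intro i j hij h
      apply hij
      rw [mul_one, mul_one] at h
      have h2 := Nat.eq_of_mul_eq_mul_left hP1 h
      exact he (Nat.pow_right_injective le_rfl h2))
    (adm K P e hP)
  refine ⟨3 / 4 - δ / 4, by linarith, ?_⟩
  obtain ⟨M, hMd⟩ : ∃ M : ℕ, M = P * 2 ^ (∑ i, e i + 1) := ⟨_, rfl⟩
  have hM : ∀ i : Fin K, 2 * (P * 2 ^ e i) ≤ M := by
    intro i
    rw [hMd]
    have h1 : 2 * (P * 2 ^ e i) = P * 2 ^ (e i + 1) := by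
      rw [pow_succ]
      ring
    rw [h1]
    have h2 : e i ≤ ∑ i, e i := Finset.single_le_sum (fun _ _ => Nat.zero_le _) (mem_univ i)
    exact Nat.mul_le_mul_left _ (Nat.pow_le_pow_right (by norm_num) (by omega))
  have hM1 : 1 ≤ M := by
    rw [hMd]
    exact Nat.mul_pos hP1 (by positivity)
  refine step K P M (by omega) e he hM1 hP1 hM (3 / 4 - δ / 4) (1 - δ / 2) x₀ (by linarith)
    (by linarith) (by linarith) ?_
  intro x hxx
  refine ⟨_, hx x hxx, ?_⟩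
  intro n hn
  classical
  have hn' := Finset.mem_filter.1 hn
  exact ⟨hn'.1, hn'.2.2⟩

/-- every set of `2000` exponents contains the pair -/
theorem main_set (E : Finset ℕ) (hE : 2000 ≤ E.card) :
    ∃ θ : ℝ, 1 / 2 < θ ∧ ∃ N₀ : ℕ, ∀ N : ℕ, N₀ ≤ N → ∃ x ∈ E, ∃ y ∈ E, x < y ∧
    (N : ℝ) ^ θ ≤ ({q : ℕ | Good (y - x) ((N : ℝ) ^ θ) N q}.ncard : ℝ) := by
  obtain ⟨E', hE', hc⟩ := Finset.exists_subset_card_eq hE
  obtain ⟨θ, h1, N₀, h2⟩ := main_k 2000 rfl (E'.orderEmbOfFin hc)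
    (E'.orderEmbOfFin hc).injective
  refine ⟨θ, h1, N₀, fun N hN => ?_⟩
  obtain ⟨i, j, hij, h⟩ := h2 N hN
  exact ⟨_, hE' (E'.orderEmbOfFin_mem hc i), _, hE' (E'.orderEmbOfFin_mem hc j), hij, h⟩

end Pool.Agent.H947R3.CA
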